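import Pool.Agent.KS6_95.SD.Core

/-!
# MP_288d1b_co: `‖α + 2·α‖` against `‖α + α‖`, exponents up to `2.2938`, with any constant
-/

set_option autoImplicit false

open scoped ENNReal NNReal

namespace Pool.Agent.Results.MP_288d1b_co.EveryConstant

/-- `‖α‖`, the sum of all values of `α` (with values in `[0,∞]`). -/
noncomputable def mass (α : ℤ → ℝ≥0∞) : ℝ≥0∞ := ∑' i : ℤ, α i

/-- `‖α + m·α‖`: the infimum over `0 < p < 1` of the sum over `i : ℤ` of the `p`-th power of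
the sum of `α j * α k` over all pairs `(j, k)` with `j + m * k = i`. -/
noncomputable def dsize (α : ℤ → ℝ≥0∞) (m : ℤ) : ℝ≥0∞ :=
  ⨅ p : Set.Ioo (0 : ℝ) 1,
    ∑' i : ℤ, (∑' q : {q : ℤ × ℤ // q.1 + m * q.2 = i}, α q.1.1 * α q.1.2) ^ (p : ℝ)

/-- The indicator function of a finite set of integers. -/
noncomputable def ind (A : Finset ℤ) (i : ℤ) : ℝ≥0∞ := if i ∈ A then 1 else 0

/-- The set `A + m·A = {a + m b : a, b ∈ A}`. -/
def dilSum (m : ℤ) (A : Finset ℤ) : Finset ℤ := Finset.image₂ (fun a b => a + m * b) A A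

theorem mass_ind (A : Finset ℤ) : mass (ind A) = (A.card : ℝ≥0∞) :=
  Pool.Agent.Results.MP_288d1b_co.DilateExponent.mass_ind A

theorem dsize_ind (A : Finset ℤ) (m : ℤ) : dsize (ind A) m = ((dilSum m A).card : ℝ≥0∞) :=
  Pool.Agent.Results.MP_288d1b_co.DilateExponent.dsize_ind A m

theorem ind_le_one (A : Finset ℤ) (i : ℤ) : ind A i ≤ 1 :=
  Pool.Agent.Results.MP_288d1b_co.DilateExponent.ind_le_one A i

theorem cast_ineq (C : ℝ≥0) (x y z : ℕ) (r t : ℝ) (hr : 0 ≤ r) (ht : 0 ≤ t)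
    (h : (C : ℝ) * (x : ℝ) ^ r < (y : ℝ) ^ t * (z : ℝ)) :
    (C : ℝ≥0∞) * (x : ℝ≥0∞) ^ r < (y : ℝ≥0∞) ^ t * (z : ℝ≥0∞) := by
  have e1 : (C : ℝ≥0∞) * (x : ℝ≥0∞) ^ r = ENNReal.ofReal ((C : ℝ) * (x : ℝ) ^ r) := by
    rw [ENNReal.ofReal_mul (NNReal.coe_nonneg C), ENNReal.ofReal_coe_nnreal,
      ← ENNReal.ofReal_rpow_of_nonneg (Nat.cast_nonneg x) hr, ENNReal.ofReal_natCast]
  have e2 : (y : ℝ≥0∞) ^ t * (z : ℝ≥0∞) = ENNReal.ofReal ((y : ℝ) ^ t * (z : ℝ)) := by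
    rw [ENNReal.ofReal_mul (by positivity), ENNReal.ofReal_natCast,
      ← ENNReal.ofReal_rpow_of_nonneg (Nat.cast_nonneg y) ht, ENNReal.ofReal_natCast]
  rw [e1, e2]
  exact (ENNReal.ofReal_lt_ofReal_iff_of_nonneg (by positivity)).2 h

/-- **The norms of indicator functions; large sums of dilates.** -/
theorem result :
    -- the norms of the indicator function of a finite set `A` are `|A|` and `|A + m·A|`
    (∀ A : Finset ℤ, (∀ i, ind A i ≤ 1) ∧ mass (ind A) = (A.card : ℝ≥0∞) ∧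
      ∀ m : ℤ, dsize (ind A) m = ((dilSum m A).card : ℝ≥0∞)) ∧
    -- all exponents `θ` with `(1 + s) ^ θ < 2 s (1 + s)` for some `s ≥ 1`, every constant `C`
    (∀ s θ : ℝ, 1 ≤ s → 2 ≤ θ → (1 + s) ^ θ < 2 * s * (1 + s) →
      ∀ C : ℝ≥0, ∃ A : Finset ℤ, A.Nonempty ∧
        C * dsize (ind A) 1 ^ θ < mass (ind A) ^ (θ - 1) * dsize (ind A) 2 ∧
        C * dsize (ind A) 1 ^ 2 < mass (ind A) * dsize (ind A) 2) ∧
    -- the exponent `2.293`
    (∀ C : ℝ≥0, ∃ A : Finset ℤ, A.Nonempty ∧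
      C * dsize (ind A) 1 ^ (2293 / 1000 : ℝ) < mass (ind A) ^ (1293 / 1000 : ℝ) * dsize (ind A) 2 ∧
      C * dsize (ind A) 1 ^ 2 < mass (ind A) * dsize (ind A) 2) := by
  have key : ∀ s θ : ℝ, 1 ≤ s → 2 ≤ θ → (1 + s) ^ θ < 2 * s * (1 + s) →
      ∀ C : ℝ≥0, ∃ A : Finset ℤ, A.Nonempty ∧
        C * dsize (ind A) 1 ^ θ < mass (ind A) ^ (θ - 1) * dsize (ind A) 2 ∧
        C * dsize (ind A) 1 ^ 2 < mass (ind A) * dsize (ind A) 2 := by
    intro s θ hs hθ h C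
    obtain ⟨A, hA, h1, h2⟩ := Pool.Agent.KS6_95.SD.exists_both s θ C hs hθ (NNReal.coe_nonneg C) h
    refine ⟨A, hA, ?_, ?_⟩
    · rw [mass_ind, dsize_ind, dsize_ind]
      exact cast_ineq C _ _ _ _ _ (by linarith) (by linarith) h1
    · rw [mass_ind, dsize_ind, dsize_ind]
      have := cast_ineq C (dilSum 1 A).card A.card (dilSum 2 A).card 2 1 (by norm_num)
        (by norm_num) (by rw [Real.rpow_one, Real.rpow_two]; exact h2)
      rwa [ENNReal.rpow_one, ENNReal.rpow_two] at this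
  refine ⟨fun A => ⟨ind_le_one A, mass_ind A, dsize_ind A⟩, key, fun C => ?_⟩
  obtain ⟨A, hA, h1, h2⟩ := key (17 / 5) (2293 / 1000) (by norm_num) (by norm_num)
    Pool.Agent.KS6_95.SD.numeric C
  refine ⟨A, hA, ?_, h2⟩
  have e : (2293 / 1000 - 1 : ℝ) = 1293 / 1000 := by norm_num
  rwa [e] at h1

end Pool.Agent.Results.MP_288d1b_co.EveryConstant
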